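import Pool.Agent.Lib.MP_9701dc_gt.Incidence
import Pool.Agent.Lib.MP_9701dc_gt.Minor
import Pool.Agent.Lib.MP_9701dc_gt.PartiteBound

set_option autoImplicit false

/-!
# The torsion of balanced complexes

Let `X` be a simplicial complex whose vertices are coloured with `q` colours such that every
`d`-dimensional face has exactly `a` vertices of each colour. Then
`|Tors H_{d-1}(X; ℤ)|^(2q) ≤ (a^q q!)^r`, where `r` is the rank of the `d`-th boundary matrix.
-/

namespace Pool.Agent.Results.MP_9701dc_gt.BalancedTorsion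

open Finset

/-- `X` is a simplicial complex whose vertex set is all of `Fin n`: its members (the faces) are
nonempty, every single vertex is a face, and nonempty subsets of faces are faces. -/
structure IsComplex {n : ℕ} (X : Finset (Finset (Fin n))) : Prop where
  nonempty : ∀ σ ∈ X, σ.Nonempty
  vertex : ∀ v, {v} ∈ X
  face : ∀ τ ∈ X, ∀ σ ⊆ τ, σ.Nonempty → σ ∈ X

/-- The coefficient of `σ` in the boundary of `τ`: it is `(-1)^i` if `σ` is obtained from `τ` by
deleting a vertex `v` such that exactly `i` vertices of `τ` are smaller than `v`, and `0`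
otherwise. -/
def incidence {n : ℕ} (σ τ : Finset (Fin n)) : ℤ :=
  ∑ v ∈ τ, if τ.erase v = σ then (-1) ^ (τ.filter (· < v)).card else 0

/-- The faces with `k` vertices, that is, of dimension `k-1`. -/
abbrev Faces {n : ℕ} (X : Finset (Finset (Fin n))) (k : ℕ) : Type :=
  {σ : Finset (Fin n) // σ ∈ X ∧ σ.card = k}

/-- The integral simplicial chains on the faces with `k` vertices. -/
def Chain {n : ℕ} (X : Finset (Finset (Fin n))) (k : ℕ) : Type := Faces X k → ℤ

instance {n : ℕ} (X : Finset (Finset (Fin n))) (k : ℕ) : AddCommGroup (Chain X k) :=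
  Pi.addCommGroup

/-- The matrix of the simplicial boundary map from the chains on the faces with `k+1` vertices
(the `k`-dimensional faces) to the chains on the faces with `k` vertices. -/
def boundaryMatrix {n : ℕ} (X : Finset (Finset (Fin n))) (k : ℕ) :
    Matrix (Faces X k) (Faces X (k + 1)) ℤ :=
  Matrix.of fun σ τ => incidence σ.1 τ.1

/-- The formula for the simplicial boundary of a `k`-dimensional chain (a chain on the faces with
`k+1` vertices), which is a `(k-1)`-dimensional chain. -/
def bd {n : ℕ} (X : Finset (Finset (Fin n))) (k : ℕ) (c : Chain X (k + 1)) : Chain X k :=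
  fun σ => ∑ τ, boundaryMatrix X k σ τ * c τ

theorem bd_add {n : ℕ} (X : Finset (Finset (Fin n))) (k : ℕ) (c c' : Chain X (k + 1)) :
    bd X k (c + c') = bd X k c + bd X k c' := by
  funext σ
  change _ = (∑ τ, boundaryMatrix X k σ τ * c τ) + (∑ τ, boundaryMatrix X k σ τ * c' τ)
  rw [← Finset.sum_add_distrib]
  exact Finset.sum_congr rfl fun τ _ => mul_add _ _ _

/-- The simplicial boundary map as a homomorphism. -/
def boundary {n : ℕ} (X : Finset (Finset (Fin n))) (k : ℕ) : Chain X (k + 1) →+ Chain X k :=
  AddMonoidHom.mk' (bd X k) (bd_add X k)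

/-- The group of `k`-dimensional cycles. -/
def Cycles {n : ℕ} (X : Finset (Finset (Fin n))) (k : ℕ) : AddSubgroup (Chain X (k + 1)) :=
  (boundary X k).ker

/-- Simplicial homology `H_k(X; ℤ)`: cycles modulo boundaries. -/
def Homology {n : ℕ} (X : Finset (Finset (Fin n))) (k : ℕ) : Type :=
  Cycles X k ⧸ (boundary X (k + 1)).range.addSubgroupOf (Cycles X k)

instance {n : ℕ} (X : Finset (Finset (Fin n))) (k : ℕ) : AddCommGroup (Homology X k) :=
  QuotientAddGroup.Quotient.addCommGroup _

open Pool.Agent.Lib.MP_9701dc_gt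

theorem incidence_eq {n : ℕ} (σ τ : Finset (Fin n)) : incidence σ τ = inc σ τ := rfl

theorem chain_sub {n : ℕ} {X : Finset (Finset (Fin n))} {k : ℕ} (c c' : Chain X k)
    (σ : Faces X k) : (c - c') σ = c σ - c' σ := rfl

theorem chain_zsmul {n : ℕ} {X : Finset (Finset (Fin n))} {k : ℕ} (a : ℤ) (c : Chain X k)
    (σ : Faces X k) : (a • c) σ = a * c σ := rfl

/-- The algebraic part: the torsion is bounded by a nonsingular minor of the boundary matrix of
maximal size. -/
theorem core {n : ℕ} (X : Finset (Finset (Fin n))) (m : ℕ) :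
    ∃ (s : Set (Faces X (m + 2))) (ρ : s → Faces X (m + 1)) (_ : Fintype s)
      (A : Matrix s s ℤ), Function.Injective ρ ∧ (∀ i j, A i j = inc (ρ j).1 i.1.1) ∧
      Fintype.card s = ((boundaryMatrix X (m + 1)).map (Int.cast : ℤ → ℚ)).rank ∧
      Finite {h : Homology X m // IsOfFinAddOrder h} ∧
      Nat.card {h : Homology X m // IsOfFinAddOrder h} ≤ A.det.natAbs := by
  classical
  obtain ⟨s, ρ, hρ, hcard, hli, hmain⟩ := Minor.exists_int_minor (boundaryMatrix X (m + 1))
  have hfs : Fintype s := Fintype.ofFinite s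
  set A : Matrix s s ℤ := Matrix.of fun i j => boundaryMatrix X (m + 1) (ρ j) i.1 with hA
  have hAdet : A.det ≠ 0 := by
    have h1 : LinearIndependent ℚ (A.map (Int.cast : ℤ → ℚ)).row := by
      rw [Fintype.linearIndependent_iff]
      intro g hg
      have hg0 : g = 0 := by
        apply hli
        intro j
        rw [finsum_eq_sum_of_fintype]
        have := congrFun hg j
        simp only [Finset.sum_apply, Pi.smul_apply, smul_eq_mul, Pi.zero_apply] at this
        exact this
      intro i
      rw [hg0]; rfl
    rw [Matrix.linearIndependent_rows_iff_isUnit, Matrix.isUnit_iff_isUnit_det,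
      isUnit_iff_ne_zero] at h1
    intro h0
    apply h1
    have := (Int.castRingHom ℚ).map_det A
    rw [h0] at this
    simpa using this.symm
  refine ⟨s, ρ, hfs, A, hρ, fun i j => rfl, ?_, ?_⟩
  · rw [← hcard, Nat.card_eq_fintype_card]
  -- the lattice
  have hliZ : LinearIndependent ℤ A.row := Matrix.linearIndependent_rows_of_det_ne_zero hAdet
  set L : Submodule ℤ (s → ℤ) := Submodule.span ℤ (Set.range A.row) with hL
  have hcardL : Nat.card ((s → ℤ) ⧸ L) = A.det.natAbs := by
    rw [← Submodule.natAbs_det_basis_change (Pi.basisFun ℤ s) L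
      (Module.Basis.span hliZ), Pi.basisFun_det_apply]
    congr 2
    funext i j
    exact congrFun (congrArg Subtype.val (Module.Basis.span_apply hliZ i)) j
  have hfin : Finite ((s → ℤ) ⧸ L) := by
    apply Nat.finite_of_card_ne_zero
    rw [hcardL]
    exact Int.natAbs_ne_zero.mpr hAdet
  -- the projection
  let P : Chain X (m + 1) → (s → ℤ) := fun c j => c (ρ j)
  have hPsub : ∀ c c', P (c - c') = P c - P c' := fun c c' => rfl
  have main : ∀ x : Chain X (m + 1), ∀ k : ℤ, k ≠ 0 →
      ∀ c : Chain X (m + 2), k • x = boundary X (m + 1) c → P x ∈ L →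
      ∃ c', boundary X (m + 1) c' = x := by
    intro x k hk c hc hPx
    rw [hL, Submodule.mem_span_range_iff_exists_fun] at hPx
    obtain ⟨a, ha⟩ := hPx
    have h1 := hmain x k c a hk (fun r => by
      have := congrFun hc r
      exact this) (fun j => by
      have := congrFun ha j
      simp only [Finset.sum_apply, Pi.smul_apply, smul_eq_mul] at this
      rw [finsum_eq_sum_of_fintype]
      exact this.symm)
    let c' : Chain X (m + 2) := fun τ => if h : τ ∈ s then a ⟨τ, h⟩ else 0
    refine ⟨c', ?_⟩
    funext σ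
    rw [h1 σ, finsum_eq_sum_of_fintype]
    have e0 : boundary X (m + 1) c' σ = ∑ τ, boundaryMatrix X (m + 1) σ τ * c' τ := rfl
    have e1 : ∑ τ, boundaryMatrix X (m + 1) σ τ * c' τ =
        ∑ τ ∈ univ.filter (fun τ => τ ∈ s), boundaryMatrix X (m + 1) σ τ * c' τ := by
      symm
      refine Finset.sum_subset (Finset.subset_univ _) fun τ _ hτ => ?_
      have : c' τ = 0 := dif_neg (by simpa using hτ)
      rw [this, mul_zero]
    rw [e0, e1, Finset.sum_subtype (univ.filter (fun τ => τ ∈ s)) (p := fun τ => τ ∈ s)
      (by simp)]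
    refine Finset.sum_congr rfl fun i _ => ?_
    have : c' i.1 = a i := dif_pos i.2
    rw [this]; ring
  -- the injection
  set Bd : AddSubgroup (Cycles X m) := (boundary X (m + 1)).range.addSubgroupOf (Cycles X m)
    with hBd
  let qt : Cycles X m →+ Homology X m := QuotientAddGroup.mk' Bd
  have hq : Function.Surjective qt := QuotientAddGroup.mk'_surjective Bd
  have hqker : ∀ x, qt x = 0 ↔ x ∈ Bd := fun x => QuotientAddGroup.eq_zero_iff x
  choose r hr using hq
  let f : {h : Homology X m // IsOfFinAddOrder h} → (s → ℤ) ⧸ L := fun h =>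
    Submodule.Quotient.mk (P (r h.1).1)
  have hf : Function.Injective f := by
    intro h h' hhh
    apply Subtype.ext
    have hL' : P ((r h.1).1 - (r h'.1).1) ∈ L := by
      rw [hPsub]
      exact (Submodule.Quotient.eq L).mp hhh
    have htor : IsOfFinAddOrder (h.1 - h'.1) := by
      rw [sub_eq_add_neg]
      exact h.2.add h'.2.neg
    obtain ⟨k, hk0, hk⟩ := isOfFinAddOrder_iff_nsmul_eq_zero.mp htor
    have hk1 : qt (k • (r h.1 - r h'.1)) = 0 := by
      rw [map_nsmul, map_sub, hr, hr]
      exact hk
    rw [hqker] at hk1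
    obtain ⟨c, hc⟩ := hk1
    have hc1 : ((k : ℕ) : ℤ) • ((r h.1).1 - (r h'.1).1) = boundary X (m + 1) c := by
      rw [natCast_zsmul]
      exact hc.symm
    obtain ⟨c', hc'⟩ := main _ k (by exact_mod_cast hk0.ne') c hc1 hL'
    have hmem : r h.1 - r h'.1 ∈ Bd := ⟨c', hc'⟩
    have := (hqker _).mpr hmem
    rw [map_sub, hr, hr] at this
    exact sub_eq_zero.mp this
  refine ⟨Finite.of_injective f hf, ?_⟩
  rw [← hcardL]
  exact Nat.card_le_card_of_injective f hf

theorem inc_le_one {n : ℕ} (σ τ : Finset (Fin n)) : |(inc σ τ : ℝ)| ≤ 1 := by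
  by_cases h : inc σ τ = 0
  · rw [h]; simp
  · obtain ⟨v, hv, rfl⟩ := inc_ne_zero h
    rw [inc_insert hv]
    have h1 := sg_sq v σ
    have h2 : ((sg v σ : ℤ) : ℝ) ^ 2 = 1 := by
      rw [sq]; exact_mod_cast h1
    have h3 : |((sg v σ : ℤ) : ℝ)| ^ 2 = 1 := by rw [sq_abs]; exact h2
    nlinarith [abs_nonneg ((sg v σ : ℤ) : ℝ)]

theorem filter_insert_card {n q : ℕ} (col : Fin n → Fin q) {v : Fin n} {σ : Finset (Fin n)}
    (hv : v ∉ σ) (i : Fin q) :
    ((insert v σ).filter (fun u => col u = i)).card =
      (σ.filter (fun u => col u = i)).card + if col v = i then 1 else 0 := by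
  rw [filter_insert]
  split_ifs with h
  · rw [card_insert_of_notMem (by simp [hv])]
  · simp

/-- **Main theorem.** Let `X` be a simplicial complex on `n` vertices and `d ≥ 1`. Suppose that
`d + 1 = q a` and that the vertices are coloured with `q` colours so that every `d`-dimensional
face has exactly `a` vertices of each colour. Then the set of elements of finite order of
`H_{d-1}(X; ℤ)` is finite and its cardinality `t` satisfies `t^(2q) ≤ (a^q q!)^r`, where `r` is
the rank (over `ℚ`) of the boundary matrix from the `d`-dimensional to the `(d-1)`-dimensional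
chains. -/
theorem result (n d q a : ℕ) (hd : 1 ≤ d) (hqa : d + 1 = q * a)
    (X : Finset (Finset (Fin n))) (_hX : IsComplex X) (col : Fin n → Fin q)
    (hcol : ∀ τ ∈ X, τ.card = d + 1 → ∀ i : Fin q, (τ.filter (fun v => col v = i)).card = a) :
    {h : Homology X (d - 1) | IsOfFinAddOrder h}.Finite ∧
    {h : Homology X (d - 1) | IsOfFinAddOrder h}.ncard ^ (2 * q) ≤
      (a ^ q * q.factorial) ^ ((boundaryMatrix X d).map (Int.cast : ℤ → ℚ)).rank := by
  classical
  obtain ⟨m, rfl⟩ : ∃ m, d = m + 1 := ⟨d - 1, by omega⟩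
  obtain ⟨p, rfl⟩ : ∃ p, q = p + 1 := by
    refine ⟨q - 1, ?_⟩
    rcases Nat.eq_zero_or_pos q with h | h
    · subst h; omega
    · omega
  have ha : 0 < a := by
    rcases Nat.eq_zero_or_pos a with h | h
    · subst h; omega
    · exact h
  rw [Nat.add_sub_cancel]
  obtain ⟨s, ρ, hfs, A, hρ, hA, hcard, hfin, hle⟩ := core X m
  refine ⟨hfin, ?_⟩
  -- the real matrix, rows indexed by ridges
  let M : Matrix s s ℝ := Matrix.of fun j i => (inc (ρ j).1 i.1.1 : ℝ)
  have hMdet : M.det = (A.det : ℝ) := by
    have h1 : M = ((Int.castRingHom ℝ).mapMatrix A).transpose := by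
      ext j i
      simp only [M, Matrix.of_apply, Matrix.transpose_apply, RingHom.mapMatrix_apply,
        Matrix.map_apply, hA]
      rfl
    rw [h1, Matrix.det_transpose, ← RingHom.map_det]
    rfl
  let μ : s → ZMod (p + 1) := fun j =>
    if h : ∃ c : Fin (p + 1), ((ρ j).1.filter (fun v => col v = c)).card < a then
      Classical.choose h else 0
  let y : s → ZMod (p + 1) → Finset (Fin n) := fun i c =>
    i.1.1.filter (fun v => (show ZMod (p + 1) from col v) = c)
  -- the structure of a nonzero entry
  have key : ∀ j i : s, M j i ≠ 0 → ∃ v, v ∉ (ρ j).1 ∧ i.1.1 = insert v (ρ j).1 ∧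
      μ j = (show ZMod (p + 1) from col v) := by
    intro j i hne
    have hne' : inc (ρ j).1 i.1.1 ≠ 0 := by
      intro h
      apply hne
      simp only [M, Matrix.of_apply, h, Int.cast_zero]
    obtain ⟨v, hv, hiv⟩ := inc_ne_zero hne'
    refine ⟨v, hv, hiv, ?_⟩
    have hcount : ∀ c : Fin (p + 1), ((ρ j).1.filter (fun u => col u = c)).card +
        (if col v = c then 1 else 0) = a := by
      intro c
      rw [← filter_insert_card col hv c, ← hiv]
      exact hcol i.1.1 i.1.2.1 i.1.2.2 c
    have hex : ∃ c : Fin (p + 1), ((ρ j).1.filter (fun v => col v = c)).card < a := by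
      refine ⟨col v, ?_⟩
      have := hcount (col v)
      rw [if_pos rfl] at this
      omega
    have hμ : μ j = Classical.choose hex := dif_pos hex
    have hch := Classical.choose_spec hex
    have hc2 := hcount (Classical.choose hex)
    have : col v = Classical.choose hex := by
      by_contra hn
      rw [if_neg hn] at hc2
      omega
    rw [hμ, ← this]
  have hb := Partite.det_bound (q := p + 1) (a := a) (L := Finset (Fin n)) (A := M) (μ := μ)
    (y := y) ha
    (fun r c => inc_le_one _ _)
    (by
      intro r c c' hc hc' hne heq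
      obtain ⟨v, hv, hcv, hμv⟩ := key r c hc
      obtain ⟨v', hv', hcv', hμv'⟩ := key r c' hc'
      apply hne
      have hvy : v ∈ y c (μ r) := by
        simp only [y, mem_filter]
        rw [hcv]
        exact ⟨mem_insert_self _ _, hμv.symm⟩
      rw [heq] at hvy
      simp only [y, mem_filter] at hvy
      have h1 := hvy.1
      rw [hcv', mem_insert] at h1
      have hvv : v = v' := by
        rcases h1 with h | h
        · exact h
        · exact absurd h hv
      apply Subtype.ext
      apply Subtype.ext
      rw [hcv, hcv', hvv])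
    (by
      intro r c c' hc hc' i hi
      obtain ⟨v, hv, hcv, hμv⟩ := key r c hc
      obtain ⟨v', hv', hcv', hμv'⟩ := key r c' hc'
      simp only [y]
      rw [hcv, hcv', filter_insert, filter_insert, if_neg, if_neg]
      · intro h
        exact hi (h.symm.trans hμv'.symm)
      · intro h
        exact hi (h.symm.trans hμv.symm))
    (by
      intro c i
      have hcc : (c.1.1.filter (fun v => col v = (show Fin (p + 1) from i))).card = a :=
        hcol c.1.1 c.1.2.1 c.1.2.2 i
      rw [← hcc]
      refine Finset.card_le_card_of_injOn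
        (fun r => if h : M r c ≠ 0 then Classical.choose (key r c h) else ⟨0, by
          have := c.1.1.card_le_univ
          rw [c.1.2.2, Fintype.card_fin] at this
          omega⟩) ?_ ?_
      · intro r hr
        have hr' : μ r = i ∧ M r c ≠ 0 := by simpa using hr
        have hsp := Classical.choose_spec (key r c hr'.2)
        have hmem : ∀ w, c.1.1 = insert w (ρ r).1 → w ∈ c.1.1 := fun w hw => by
          rw [hw]; exact mem_insert_self _ _
        simp only [dif_pos hr'.2]
        rw [mem_coe, mem_filter]
        exact ⟨hmem _ hsp.2.1, hsp.2.2.symm.trans hr'.1⟩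
      · intro r hr r' hr' hrr
        have hr1 : μ r = i ∧ M r c ≠ 0 := by simpa using hr
        have hr2 : μ r' = i ∧ M r' c ≠ 0 := by simpa using hr'
        simp only [dif_pos hr1.2, dif_pos hr2.2] at hrr
        have hsp := Classical.choose_spec (key r c hr1.2)
        have hsp' := Classical.choose_spec (key r' c hr2.2)
        apply hρ
        apply Subtype.ext
        have herase : ∀ (r : s) (w : Fin n), w ∉ (ρ r).1 → c.1.1 = insert w (ρ r).1 →
            (ρ r).1 = c.1.1.erase w := fun r w hw hcw => by
          rw [hcw, erase_insert hw]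
        have h1 := herase r _ hsp.1 hsp.2.1
        have h2 := herase r' _ hsp'.1 hsp'.2.1
        rw [h1, h2, hrr])
  rw [hMdet, hcard] at hb
  have htc : {h : Homology X m | IsOfFinAddOrder h}.ncard =
      Nat.card {h : Homology X m // IsOfFinAddOrder h} := rfl
  have h1 : (({h : Homology X m | IsOfFinAddOrder h}.ncard : ℕ) : ℝ) ≤ |(A.det : ℝ)| := by
    rw [htc, ← Int.cast_abs, ← Int.natCast_natAbs]
    exact_mod_cast hle
  have h2 : (({h : Homology X m | IsOfFinAddOrder h}.ncard : ℕ) : ℝ) ^ (2 * (p + 1)) ≤
      (A.det : ℝ) ^ (2 * (p + 1)) := by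
    have h3 : (A.det : ℝ) ^ (2 * (p + 1)) = |(A.det : ℝ)| ^ (2 * (p + 1)) :=
      ((even_two_mul (p + 1)).pow_abs _).symm
    rw [h3]
    exact pow_le_pow_left₀ (Nat.cast_nonneg _) h1 _
  exact_mod_cast h2.trans hb

end Pool.Agent.Results.MP_9701dc_gt.BalancedTorsion
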