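import Pool.Agent.Lib.MP_9701dc_gt.FD.LogDet
import Pool.Agent.Lib.MP_9701dc_gt.FD.K1c
import Pool.Agent.Lib.MP_9701dc_gt.FD.Mu3

set_option autoImplicit false

/-!
# The growth constant of the maximal torsion in fixed dimension

For every `d ≥ 2` the limit `λ_d` of `log T(n,d) / n^d` exists, `log T(n,d) ≤ λ_d n^d` for all `n`
(so that `λ_d` is the supremum of the sequence), and `λ_d` is at least
`E log |det (u_ij - 1)_{1 ≤ i,j ≤ d}| / (d+1)!`, where the `u_ij` are independent and uniformly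
distributed on the unit circle, and at least `(d (log d - 1) + log (d+1)) / (2 (d+1)!)`, which is
larger than `(log (d+1) - 1) / (2 d!)`, the value given by the average of the squared torsion.
For `d = 2` the first bound is `3 ζ(3) / (4 π²)`.

Proof of the first lower bound: the vertices are the pairs `(p, g)`, `p ∈ ℤ/P`, `g ∈ (ℤ/M)^d`; the
faces are the sets `{(p_i, g_i)}` with `∑ p_i = 0`, `∑ g_i ∈ {0, e_1, …, e_d}`, the coordinates of
all but the last `g_i` being different from `M - 1`. Their Gram matrix is block diagonal, with blocks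
that are finite sections of a multilevel Toeplitz matrix with symbol `U* U`, `U` the
`(d+1) × (d+1)` matrix with entries `u_ij` and one row and one column of ones. Fischer's inequality for
the tiling of a (twisted) torus by boxes gives a one-sided Szegő inequality. The Cauchy-Binet
formula and one additional cone vertex turn the Gram determinant into torsion.
-/

namespace Pool.Agent.Results.MP_9701dc_gt.FixedDimension

open Filter Topology MeasureTheory Pool.Agent.Results.MP_9701dc_gt.TorsionBound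

/-- `t` is the order of the torsion subgroup of `H_{d-1}(X; ℤ)` (the set of its elements of finite
order) for some `d`-dimensional simplicial complex `X` on `n` vertices (the largest face of `X`
has `d + 1` vertices). -/
def IsTorsionOrder (n d t : ℕ) : Prop :=
  ∃ X : Finset (Finset (Fin n)), IsComplex X ∧ (∃ σ ∈ X, σ.card = d + 1) ∧
    (∀ σ ∈ X, σ.card ≤ d + 1) ∧ {h : Homology X (d - 1) | IsOfFinAddOrder h}.Finite ∧
    t = {h : Homology X (d - 1) | IsOfFinAddOrder h}.ncard

/-- `T(n,d)`, the largest order of the torsion subgroup of `H_{d-1}(X; ℤ)` over the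
`d`-dimensional simplicial complexes `X` on `n` vertices. -/
noncomputable def T (n d : ℕ) : ℕ := sSup {t : ℕ | IsTorsionOrder n d t}

/-- The mean of `log |det (u_ij - 1)_{1 ≤ i,j ≤ d}|` for independent `u_ij`, uniformly distributed on
the unit circle; `UnitAddCircle` is `ℝ/ℤ` with its Haar probability measure and
`toCircle θ = exp (2 π i θ)`. -/
noncomputable def meanLog (d : ℕ) : ℝ :=
  ∫ θ : Fin d × Fin d → UnitAddCircle,
    Real.log ‖(Matrix.of fun i j : Fin d => (AddCircle.toCircle (θ (i, j)) : ℂ) - 1).det‖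

open Pool.Agent.Lib.MP_9701dc_gt Pool.Agent.Lib.MP_9701dc_gt.GR in
theorem T_eq {n d : ℕ} (hd : 2 ≤ d) : T n d = Tmax n d := by
  unfold T Tmax
  congr 1
  ext t
  constructor
  · rintro ⟨X, h1, h2, h3, _, h5⟩
    exact ⟨X, h1, ⟨h2, h3⟩, h5⟩
  · rintro ⟨X, h1, ⟨h2, h3⟩, h5⟩
    exact ⟨X, h1, h2, h3, (TorsionBound.result n d hd X h1).1, h5⟩

/-- The average value `(log (d+1) - 1) / (2 d!)` is smaller than the second lower bound. -/
theorem average_lt {d : ℕ} (hd : 2 ≤ d) :
    (Real.log (d + 1) - 1) / (2 * d.factorial) <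
      (d * (Real.log d - 1) + Real.log (d + 1)) / (2 * (d + 1).factorial) := by
  have hd0 : (0 : ℝ) < d := by
    have : 0 < d := by omega
    exact_mod_cast this
  have h1 : Real.log (1 + 1 / (d : ℝ)) < 1 / (d : ℝ) := by
    have := Real.log_lt_sub_one_of_pos (x := 1 + 1 / (d : ℝ)) (by positivity)
      (by
        have : (0 : ℝ) < 1 / (d : ℝ) := by positivity
        linarith)
    linarith
  have h2 : Real.log ((d : ℝ) + 1) = Real.log d + Real.log (1 + 1 / (d : ℝ)) := by
    rw [← Real.log_mul hd0.ne' (by positivity)]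
    congr 1
    field_simp
  have h3 : (d : ℝ) * Real.log (1 + 1 / (d : ℝ)) < 1 := by
    have := mul_lt_mul_of_pos_left h1 hd0
    rwa [mul_one_div_cancel hd0.ne'] at this
  have hf : (0 : ℝ) < d.factorial := by exact_mod_cast Nat.factorial_pos d
  rw [Nat.factorial_succ, div_lt_div_iff₀ (by positivity) (by positivity)]
  push_cast
  rw [h2] at *
  nlinarith [mul_pos hf hf, mul_lt_mul_of_pos_left h3 hf]

theorem mu2 : meanLog 2 = 9 / (2 * Real.pi ^ 2) * ∑' n : ℕ, 1 / ((n : ℝ) + 1) ^ 3 :=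
  Lib.MP_9701dc_gt.FD.Mx_two

theorem result (d : ℕ) (hd : 2 ≤ d) :
    (∀ n, d + 1 ≤ n → IsGreatest {t : ℕ | IsTorsionOrder n d t} (T n d)) ∧
    ∃ lam : ℝ, Tendsto (fun n : ℕ => Real.log (T n d) / (n : ℝ) ^ d) atTop (𝓝 lam) ∧
      (∀ n : ℕ, Real.log (T n d) ≤ lam * (n : ℝ) ^ d) ∧
      meanLog d / (d + 1).factorial ≤ lam ∧
      (d * (Real.log d - 1) + Real.log (d + 1)) / (2 * (d + 1).factorial) ≤ lam ∧
      (Real.log (d + 1) - 1) / (2 * d.factorial) < lam ∧
      (d = 2 → 3 / (4 * Real.pi ^ 2) * ∑' n : ℕ, 1 / ((n : ℝ) + 1) ^ 3 ≤ lam) ∧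
      lam ≤ Real.log ((4 / 27 : ℝ) * (d + 1) ^ 5) / (10 * d.factorial) := by
  constructor
  · intro n hn
    rw [T_eq hd]
    obtain ⟨X, h1, ⟨h2, h3⟩, h4⟩ := Lib.MP_9701dc_gt.GR.Tmax_attained hn
    refine ⟨⟨X, h1, h2, h3, (TorsionBound.result n d hd X h1).1, h4⟩, ?_⟩
    rintro t ⟨Y, k1, k2, k3, _, rfl⟩
    exact Lib.MP_9701dc_gt.GR.le_Tmax k1 ⟨k2, k3⟩
  · obtain ⟨lam, h1, h2, h3⟩ := Lib.MP_9701dc_gt.GR.growth hd
    simp only [T_eq hd]
    have h4 : meanLog d / (d + 1).factorial ≤ lam := Lib.MP_9701dc_gt.FDA.mu_le hd h2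
    have h5 := Lib.MP_9701dc_gt.FDA.K1_bound hd h2
    refine ⟨lam, h1, h2, h4, h5, (average_lt hd).trans_le h5, ?_, h3⟩
    rintro rfl
    rw [mu2] at h4
    refine le_trans (le_of_eq ?_) h4
    have : ((2 + 1).factorial : ℝ) = 6 := by norm_num [Nat.factorial]
    rw [this]
    ring

end Pool.Agent.Results.MP_9701dc_gt.FixedDimension
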