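import Pool.Agent.Lib.MP_9701dc_gt.DD.Torsion
import Pool.Agent.Lib.MP_9701dc_gt.DD.Torsion2

set_option autoImplicit false

/-!
# The maximal torsion is the average torsion, up to a factor `e^{o(N)}`

Kalai's weighted enumeration shows that the average of `|Tors H_{d-1}|^2` over all sets of
`N = binom (n-1) d` faces of dimension `d` (where a set that is not a column basis counts `0`) is
`E(n,d) = n^(binom (n-2) d) / binom (binom n (d+1)) N`. We show that the maximum `T(n,d)^2` is at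
most `e^{ε N} E(n,d)` for all `d ≥ d₀(ε)` and all `n`.

Proof: let `∂` be the boundary matrix of a column basis, with weighted rows, and `Φ` the product of
the resolvent of `∂ᵀ∂` with `∂ᵀ`. The energy of `Φ` is compared with the energy of the function
obtained from `Φ` by creating one more vertex in the second (exterior algebra) variable, with the
vector `1_t - (1-β) 1_V` at the face `t`. The anticommutation relations give, up to errors of
relative size `1/d` and for every real `β`, a quadratic inequality; the optimal `β` gives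
`(1 - g h) (1 - p + g (1 + p h)) ≤ g`, `p = (d+1)/n`, for the Stieltjes transform `g`, which is the
equation of the free (Jacobi) product of two projections of trace `p`. The range `n - d` small is
treated by complementary minors.
-/

namespace Pool.Agent.Results.MP_9701dc_gt.SharpAsymptotics

open Filter Topology Pool.Agent.Results.MP_9701dc_gt.TorsionBound

/-- `t` is the order of the torsion subgroup of `H_{d-1}(X; ℤ)` (the set of its elements of finite
order) for some `d`-dimensional simplicial complex `X` on `n` vertices (the largest face of `X`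
has `d + 1` vertices). -/
def IsTorsionOrder (n d t : ℕ) : Prop :=
  ∃ X : Finset (Finset (Fin n)), IsComplex X ∧ (∃ σ ∈ X, σ.card = d + 1) ∧
    (∀ σ ∈ X, σ.card ≤ d + 1) ∧ {h : Homology X (d - 1) | IsOfFinAddOrder h}.Finite ∧
    t = {h : Homology X (d - 1) | IsOfFinAddOrder h}.ncard

/-- `T(n,d)`, the largest order of the torsion subgroup of `H_{d-1}(X; ℤ)` over the
`d`-dimensional simplicial complexes `X` on `n` vertices. -/
noncomputable def T (n d : ℕ) : ℕ := sSup {t : ℕ | IsTorsionOrder n d t}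

/-- `E(n,d) = n^(binom (n-2) d) / binom (binom n (d+1)) (binom (n-1) d)`. -/
noncomputable def E (n d : ℕ) : ℝ :=
  (n : ℝ) ^ ((n - 2).choose d) / ((n.choose (d + 1)).choose ((n - 1).choose d) : ℝ)

open Pool.Agent.Lib.MP_9701dc_gt Pool.Agent.Lib.MP_9701dc_gt.GR in
theorem T_eq {n d : ℕ} (hd : 2 ≤ d) : T n d = Tmax n d := by
  unfold T Tmax
  congr 1
  ext t
  constructor
  · rintro ⟨X, h1, h2, h3, _, h5⟩
    exact ⟨X, h1, ⟨h2, h3⟩, h5⟩
  · rintro ⟨X, h1, ⟨h2, h3⟩, h5⟩
    exact ⟨X, h1, h2, h3, (TorsionBound.result n d hd X h1).1, h5⟩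

theorem E_pos {n d : ℕ} (hn : d + 1 ≤ n) : 0 < E n d := by
  have h1 : (0 : ℝ) < n := by
    have : 0 < n := by omega
    exact_mod_cast this
  have h2 : (n - 1).choose d ≤ n.choose (d + 1) := by
    obtain ⟨m, rfl⟩ : ∃ m, n = m + 1 := ⟨n - 1, by omega⟩
    rw [Nat.add_sub_cancel, Nat.choose_succ_succ]
    exact Nat.le_add_right _ _
  have h3 : (0 : ℝ) < ((n.choose (d + 1)).choose ((n - 1).choose d) : ℝ) := by
    exact_mod_cast Nat.choose_pos h2
  unfold E
  positivity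

open Pool.Agent.Lib.MP_9701dc_gt in
theorem log_E {n d : ℕ} (hn : d + 1 ≤ n) : Real.log (E n d) = DD.tgt n d := by
  have h1 : (0 : ℝ) < n := by
    have : 0 < n := by omega
    exact_mod_cast this
  have h2 : (n - 1).choose d ≤ n.choose (d + 1) := by
    obtain ⟨m, rfl⟩ : ∃ m, n = m + 1 := ⟨n - 1, by omega⟩
    rw [Nat.add_sub_cancel, Nat.choose_succ_succ]
    exact Nat.le_add_right _ _
  have h3 : (0 : ℝ) < ((n.choose (d + 1)).choose ((n - 1).choose d) : ℝ) := by
    exact_mod_cast Nat.choose_pos h2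
  unfold E DD.tgt
  rw [Real.log_div (by positivity) h3.ne', Real.log_pow]

theorem sq_le_of_log {t : ℕ} {C B : ℝ} (hC : 0 < C)
    (h : 2 * Real.log t ≤ Real.log C + B) : (t : ℝ) ^ 2 ≤ Real.exp B * C := by
  rcases Nat.eq_zero_or_pos t with h0 | h0
  · rw [h0]
    have := Real.exp_pos B
    have : 0 < Real.exp B * C := by positivity
    simpa using this.le
  · have ht : (0 : ℝ) < t := by exact_mod_cast h0
    rw [← Real.log_le_log_iff (by positivity) (by positivity), Real.log_pow,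
      Real.log_mul (Real.exp_pos B).ne' hC.ne', Real.log_exp]
    push_cast
    linarith

/-- the growth of the torsion for fixed large `d` -/
theorem growth_rate (ε : ℝ) (hε : 0 < ε) : ∃ d₀ : ℕ, ∀ d ≥ d₀, ∀ᶠ n : ℕ in atTop,
    |2 * d.factorial * (Real.log (T n d) / (n : ℝ) ^ d) - (Real.log (d + 1) - 1)| ≤ ε := by
  obtain ⟨lam, h1, h2⟩ := Lib.MP_9701dc_gt.DD.constants
  rw [Metric.tendsto_atTop] at h2
  obtain ⟨d₀, h3⟩ := h2 (ε / 2) (by linarith)
  refine ⟨max d₀ 2, fun d hd => ?_⟩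
  have hd1 : d₀ ≤ d := (le_max_left _ _).trans hd
  have hd2 : 2 ≤ d := (le_max_right _ _).trans hd
  have h4 := h3 d hd1
  rw [Real.dist_eq, abs_lt] at h4
  obtain ⟨h5, -, -, -⟩ := h1 d hd2
  have h6 := h5.const_mul (2 * (d.factorial : ℝ))
  rw [Metric.tendsto_atTop] at h6
  obtain ⟨n₀, h7⟩ := h6 (ε / 2) (by linarith)
  filter_upwards [eventually_ge_atTop n₀] with n hn
  have h8 := h7 n hn
  rw [Real.dist_eq, abs_lt] at h8
  rw [T_eq hd2, abs_le]
  constructor <;> linarith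

/-- Let `T(n,d)` be the maximal torsion and
`E(n,d) = n^(binom (n-2) d) / binom (binom n (d+1)) (binom (n-1) d)`.
1. `E(n,d) ≤ T(n,d)^2` for all `d ≥ 2`, `n ≥ d+1` (averaging).
2. For every `ε > 0` there is `d₀` such that `T(n,d)^2 ≤ e^(ε binom (n-1) d) E(n,d)` for all
   `d ≥ d₀`, `n ≥ d+1`, and `T(n,d)^2 ≤ e^(ε binom (n-1) (d+1)) E(n,d)` for all `d ≥ 2`,
   `n ≥ d + d₀`, `n ≥ d + 1`.
3. For every `ε > 0` there is `d₀` such that, for all `d ≥ d₀`,
   `|2 d! log T(n,d) / n^d - (log (d+1) - 1)| ≤ ε` for all sufficiently large `n`. -/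
theorem result :
    (∀ n d : ℕ, 2 ≤ d → d + 1 ≤ n →
      IsGreatest {t : ℕ | IsTorsionOrder n d t} (T n d) ∧ E n d ≤ (T n d : ℝ) ^ 2) ∧
    (∀ ε : ℝ, 0 < ε → ∃ d₀ : ℕ, ∀ n d : ℕ, 2 ≤ d → d + 1 ≤ n →
      (d₀ ≤ d → (T n d : ℝ) ^ 2 ≤ Real.exp (ε * ((n - 1).choose d : ℝ)) * E n d) ∧
      (d₀ + d ≤ n → (T n d : ℝ) ^ 2 ≤ Real.exp (ε * ((n - 1).choose (d + 1) : ℝ)) * E n d)) ∧
    (∀ ε : ℝ, 0 < ε → ∃ d₀ : ℕ, ∀ d ≥ d₀, ∀ᶠ n : ℕ in atTop,
      |2 * d.factorial * (Real.log (T n d) / (n : ℝ) ^ d) - (Real.log (d + 1) - 1)| ≤ ε) := by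
  refine ⟨fun n d hd hn => ⟨?_, ?_⟩, fun ε hε => ?_, growth_rate⟩
  · rw [T_eq hd]
    obtain ⟨X, h1, ⟨h2, h3⟩, h4⟩ := Lib.MP_9701dc_gt.GR.Tmax_attained hn
    refine ⟨⟨X, h1, h2, h3, (TorsionBound.result n d hd X h1).1, h4⟩, ?_⟩
    rintro t ⟨Y, k1, k2, k3, _, rfl⟩
    exact Lib.MP_9701dc_gt.GR.le_Tmax k1 ⟨k2, k3⟩
  · rw [T_eq hd]
    have h1 := Lib.MP_9701dc_gt.DD.lower2 hd hn
    have hpos : (0 : ℝ) < Lib.MP_9701dc_gt.GR.Tmax n d := by
      obtain ⟨X, h1, ⟨h2, h3⟩, h4⟩ := Lib.MP_9701dc_gt.GR.Tmax_attained hn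
      rw [h4]
      have hfin := (TorsionBound.result n d hd X h1).1
      have : 0 < {h : Homology X (d - 1) | IsOfFinAddOrder h}.ncard :=
        (Set.ncard_pos hfin).mpr ⟨0, IsOfFinAddOrder.zero⟩
      exact_mod_cast this
    rw [← Real.log_le_log_iff (E_pos hn) (by positivity), Real.log_pow, log_E hn]
    push_cast
    exact h1
  · obtain ⟨d₀, h⟩ := Lib.MP_9701dc_gt.DD.upper2 ε hε
    refine ⟨d₀, fun n d hd hn => ?_⟩
    obtain ⟨h1, h2⟩ := h n d hd hn
    rw [T_eq hd]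
    rw [← log_E hn] at h1 h2
    exact ⟨fun h0 => sq_le_of_log (E_pos hn) (h1 h0), fun h0 => sq_le_of_log (E_pos hn) (h2 h0)⟩

end Pool.Agent.Results.MP_9701dc_gt.SharpAsymptotics
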