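import Pool.Agent.Lib.MP_9701dc_gt.Assembly

set_option autoImplicit false

/-!
# An improved upper bound for the torsion of simplicial complexes on `n` vertices

For every simplicial complex `X` on `n` vertices and every `d ≥ 2`,
`|Tors H_{d-1}(X; ℤ)|^10 ≤ ((4/27) (d+1)^5)^(binom (n-1) d)`.
-/

namespace Pool.Agent.Results.MP_9701dc_gt.TorsionBound

open Finset

/-- `X` is a simplicial complex whose vertex set is all of `Fin n`: its members (the faces) are
nonempty, every single vertex is a face, and nonempty subsets of faces are faces. -/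
structure IsComplex {n : ℕ} (X : Finset (Finset (Fin n))) : Prop where
  nonempty : ∀ σ ∈ X, σ.Nonempty
  vertex : ∀ v, {v} ∈ X
  face : ∀ τ ∈ X, ∀ σ ⊆ τ, σ.Nonempty → σ ∈ X

/-- The coefficient of `σ` in the boundary of `τ`: it is `(-1)^i` if `σ` is obtained from `τ` by
deleting a vertex `v` such that exactly `i` vertices of `τ` are smaller than `v`, and `0`
otherwise. -/
def incidence {n : ℕ} (σ τ : Finset (Fin n)) : ℤ :=
  ∑ v ∈ τ, if τ.erase v = σ then (-1) ^ (τ.filter (· < v)).card else 0

/-- The integral simplicial chains on the faces with `k` vertices, that is, of dimension `k-1`. -/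
def Chain {n : ℕ} (X : Finset (Finset (Fin n))) (k : ℕ) : Type :=
  {σ : Finset (Fin n) // σ ∈ X ∧ σ.card = k} → ℤ

instance {n : ℕ} (X : Finset (Finset (Fin n))) (k : ℕ) : AddCommGroup (Chain X k) :=
  Pi.addCommGroup

/-- The formula for the simplicial boundary of a `k`-dimensional chain (a chain on the faces with
`k+1` vertices), which is a `(k-1)`-dimensional chain. -/
def bd {n : ℕ} (X : Finset (Finset (Fin n))) (k : ℕ) (c : Chain X (k + 1)) : Chain X k :=
  fun σ => ∑ τ, incidence σ.1 τ.1 * c τ

theorem bd_add {n : ℕ} (X : Finset (Finset (Fin n))) (k : ℕ) (c c' : Chain X (k + 1)) :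
    bd X k (c + c') = bd X k c + bd X k c' := by
  funext σ
  change _ = (∑ τ, incidence σ.1 τ.1 * c τ) + (∑ τ, incidence σ.1 τ.1 * c' τ)
  rw [← Finset.sum_add_distrib]
  exact Finset.sum_congr rfl fun τ _ => mul_add _ _ _

/-- The simplicial boundary map as a homomorphism. -/
def boundary {n : ℕ} (X : Finset (Finset (Fin n))) (k : ℕ) : Chain X (k + 1) →+ Chain X k :=
  AddMonoidHom.mk' (bd X k) (bd_add X k)

/-- The group of `k`-dimensional cycles. -/
def Cycles {n : ℕ} (X : Finset (Finset (Fin n))) (k : ℕ) : AddSubgroup (Chain X (k + 1)) :=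
  (boundary X k).ker

/-- Simplicial homology `H_k(X; ℤ)`: cycles modulo boundaries. -/
def Homology {n : ℕ} (X : Finset (Finset (Fin n))) (k : ℕ) : Type :=
  Cycles X k ⧸ (boundary X (k + 1)).range.addSubgroupOf (Cycles X k)

instance {n : ℕ} (X : Finset (Finset (Fin n))) (k : ℕ) : AddCommGroup (Homology X k) :=
  QuotientAddGroup.Quotient.addCommGroup _

open Pool.Agent.Lib.MP_9701dc_gt

theorem incidence_eq {n : ℕ} (σ τ : Finset (Fin n)) : incidence σ τ = inc σ τ := rfl

theorem boundary_apply {n : ℕ} (X : Finset (Finset (Fin n))) (k : ℕ) (c : Chain X (k + 1))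
    (σ : {σ : Finset (Fin n) // σ ∈ X ∧ σ.card = k}) :
    boundary X k c σ = ∑ τ, inc σ.1 τ.1 * c τ := rfl

theorem chain_sub {n : ℕ} {X : Finset (Finset (Fin n))} {k : ℕ} (c c' : Chain X k)
    (σ : {σ : Finset (Fin n) // σ ∈ X ∧ σ.card = k}) : (c - c') σ = c σ - c' σ := rfl

theorem chain_zsmul {n : ℕ} {X : Finset (Finset (Fin n))} {k : ℕ} (a : ℤ) (c : Chain X k)
    (σ : {σ : Finset (Fin n) // σ ∈ X ∧ σ.card = k}) : (a • c) σ = a * c σ := rfl

theorem inc_inc {n : ℕ} (ρ τ : Finset (Fin n)) :
    ∑ σ : Finset (Fin n), inc ρ σ * inc σ τ = 0 := by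
  by_contra hne
  obtain ⟨σ, _, hσ⟩ := exists_ne_zero_of_sum_ne_zero hne
  obtain ⟨a, ha, hae⟩ := inc_ne_zero (left_ne_zero_of_mul hσ)
  obtain ⟨b, hb, hbe⟩ := inc_ne_zero (right_ne_zero_of_mul hσ)
  subst hae
  have hbρ : b ∉ ρ := fun h => hb (mem_insert_of_mem h)
  have hab : a ≠ b := by
    rintro rfl
    exact hb (mem_insert_self _ _)
  apply hne
  have h1 : ∑ σ : Finset (Fin n), inc ρ σ * inc σ τ =
      ∑ σ ∈ ({insert a ρ, insert b ρ} : Finset (Finset (Fin n))), inc ρ σ * inc σ τ := by
    symm
    refine sum_subset (subset_univ _) fun σ _ hσ' => ?_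
    by_contra hc
    obtain ⟨a', ha', hae'⟩ := inc_ne_zero (left_ne_zero_of_mul hc)
    obtain ⟨b', hb', hbe'⟩ := inc_ne_zero (right_ne_zero_of_mul hc)
    apply hσ'
    have : a' ∈ insert b (insert a ρ) := by
      rw [← hbe, hbe', hae']
      exact mem_insert_of_mem (mem_insert_self _ _)
    rw [mem_insert, mem_insert] at this
    rw [mem_insert, mem_singleton, hae']
    rcases this with h | h | h
    · right; rw [h]
    · left; rw [h]
    · exact absurd h ha'
  have hne' : (insert a ρ : Finset (Fin n)) ≠ insert b ρ := by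
    intro h
    have : a ∈ insert b ρ := by rw [← h]; exact mem_insert_self _ _
    rw [mem_insert] at this
    rcases this with h | h
    · exact hab h
    · exact ha h
  rw [h1, sum_pair hne', inc_insert ha, inc_insert hbρ]
  have e1 : inc (insert a ρ) τ = sg b (insert a ρ) := by rw [hbe]; exact inc_insert hb
  have e2 : inc (insert b ρ) τ = sg a (insert b ρ) := by
    rw [hbe, insert_comm]
    exact inc_insert (by simp [hab, ha])
  rw [e1, e2, sg_insert ha, sg_insert hbρ]
  rcases lt_or_gt_of_ne hab with h | h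
  · rw [if_pos h, if_neg (not_lt_of_gt h)]; ring
  · rw [if_neg (not_lt_of_gt h), if_pos h]; ring

/-- extension by zero -/
def ext {n : ℕ} (X : Finset (Finset (Fin n))) (k : ℕ) (c : Chain X k) :
    Finset (Fin n) → ℤ := fun σ => if h : σ ∈ X ∧ σ.card = k then c ⟨σ, h⟩ else 0

/-- the full boundary operator -/
def D {n : ℕ} (f : Finset (Fin n) → ℤ) : Finset (Fin n) → ℤ := fun ρ => ∑ σ, inc ρ σ * f σ

theorem D_D {n : ℕ} (f : Finset (Fin n) → ℤ) : D (D f) = 0 := by
  funext ρ
  unfold D
  simp only [mul_sum]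
  rw [sum_comm]
  have : ∀ τ, ∑ σ : Finset (Fin n), inc ρ σ * (inc σ τ * f τ) = 0 := by
    intro τ
    have h := inc_inc ρ τ
    calc _ = (∑ σ : Finset (Fin n), inc ρ σ * inc σ τ) * f τ := by
          rw [sum_mul]; exact sum_congr rfl fun σ _ => by ring
      _ = 0 := by rw [h, zero_mul]
  simp [this]

theorem ext_of_mem {n : ℕ} {X : Finset (Finset (Fin n))} {k : ℕ} (c : Chain X k)
    (σ : {σ : Finset (Fin n) // σ ∈ X ∧ σ.card = k}) : ext X k c σ.1 = c σ := by
  unfold ext
  rw [dif_pos σ.2]

theorem ext_of_not {n : ℕ} {X : Finset (Finset (Fin n))} {k : ℕ} (c : Chain X k)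
    {σ : Finset (Fin n)} (h : ¬ (σ ∈ X ∧ σ.card = k)) : ext X k c σ = 0 := by
  unfold ext
  rw [dif_neg h]

theorem ext_injective {n : ℕ} (X : Finset (Finset (Fin n))) (k : ℕ) :
    Function.Injective (ext X k) := by
  intro c c' h
  funext σ
  rw [← ext_of_mem c σ, ← ext_of_mem c' σ, h]

theorem ext_zero {n : ℕ} (X : Finset (Finset (Fin n))) (k : ℕ) : ext X k 0 = 0 := by
  funext σ
  unfold ext
  split_ifs <;> rfl

theorem D_ext_apply {n : ℕ} {X : Finset (Finset (Fin n))} {k : ℕ} (c : Chain X k)
    (ρ : Finset (Fin n)) :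
    D (ext X k c) ρ = ∑ τ : {σ : Finset (Fin n) // σ ∈ X ∧ σ.card = k}, inc ρ τ.1 * c τ := by
  unfold D
  have h1 : ∑ τ : {σ : Finset (Fin n) // σ ∈ X ∧ σ.card = k}, inc ρ τ.1 * c τ =
      ∑ τ : {σ : Finset (Fin n) // σ ∈ X ∧ σ.card = k}, inc ρ τ.1 * ext X k c τ.1 :=
    sum_congr rfl fun τ _ => by rw [ext_of_mem]
  rw [h1, ← sum_subtype (univ.filter (fun σ => σ ∈ X ∧ σ.card = k)) (by simp)
    (fun σ => inc ρ σ * ext X k c σ)]
  symm
  refine sum_subset (subset_univ _) fun σ _ hσ => ?_
  rw [ext_of_not c (by simpa using hσ), mul_zero]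

theorem ext_boundary {n : ℕ} {X : Finset (Finset (Fin n))} (hX : IsComplex X) {k : ℕ}
    (hk : 1 ≤ k) (c : Chain X (k + 1)) : ext X k (boundary X k c) = D (ext X (k + 1) c) := by
  funext ρ
  by_cases h : ρ ∈ X ∧ ρ.card = k
  · rw [D_ext_apply]
    exact ext_of_mem (boundary X k c) ⟨ρ, h⟩
  · rw [ext_of_not _ h]
    symm
    refine sum_eq_zero fun τ _ => ?_
    by_contra hc
    obtain ⟨u, hu, hue⟩ := inc_ne_zero (left_ne_zero_of_mul hc)
    have hτ : τ ∈ X ∧ τ.card = k + 1 := by
      by_contra hn
      exact right_ne_zero_of_mul hc (ext_of_not c hn)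
    apply h
    have hcard : ρ.card = k := by
      have := hτ.2
      rw [hue, card_insert_of_notMem hu] at this
      omega
    refine ⟨hX.face τ hτ.1 ρ ?_ ?_, hcard⟩
    · rw [hue]; exact subset_insert _ _
    · rw [← card_pos]; omega

theorem boundary_boundary {n : ℕ} {X : Finset (Finset (Fin n))} (hX : IsComplex X) {k : ℕ}
    (hk : 1 ≤ k) (c : Chain X (k + 2)) : boundary X k (boundary X (k + 1) c) = 0 := by
  apply ext_injective X k
  rw [ext_boundary hX hk, ext_boundary hX (by omega), D_D, ext_zero]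

/-- A cycle whose coefficients on the faces avoiding `v` vanish is zero. -/
theorem cycle_eq_zero {n : ℕ} {X : Finset (Finset (Fin n))} (hX : IsComplex X) {m : ℕ}
    (hm : 1 ≤ m) (v : Fin n) (y : Chain X (m + 1)) (hy : boundary X m y = 0)
    (hv : ∀ σ ∈ rows n (m + 1) v, ext X (m + 1) y σ = 0) : y = 0 := by
  apply ext_injective X (m + 1)
  rw [ext_zero]
  funext σ
  simp only [Pi.zero_apply]
  by_cases h : σ ∈ X ∧ σ.card = m + 1
  · by_cases hvσ : v ∈ σ
    · have h0 : D (ext X (m + 1) y) (σ.erase v) = 0 := by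
        rw [← ext_boundary hX hm, hy, ext_zero]; rfl
      unfold D at h0
      rw [sum_eq_single σ] at h0
      · have h1 : inc (σ.erase v) σ = sg v (σ.erase v) := by
          conv_lhs => rw [← insert_erase hvσ]
          rw [erase_insert_eq_erase, erase_idem]
          exact inc_insert (by simp)
        rw [h1] at h0
        have h2 := sg_sq v (σ.erase v)
        have h3 : sg v (σ.erase v) ≠ 0 := left_ne_zero_of_mul_eq_one h2
        exact (mul_eq_zero.mp h0).resolve_left h3
      · intro τ _ hne
        by_contra hc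
        obtain ⟨u, hu, hue⟩ := inc_ne_zero (left_ne_zero_of_mul hc)
        have huv : u ≠ v := by
          rintro rfl
          apply hne
          rw [hue, insert_erase hvσ]
        have hvτ : v ∉ τ := by
          rw [hue, mem_insert, not_or]
          exact ⟨huv.symm, by simp⟩
        apply right_ne_zero_of_mul hc
        by_cases hτ : τ ∈ X ∧ τ.card = m + 1
        · exact hv τ (mem_rows.mpr ⟨hτ.2, hvτ⟩)
        · exact ext_of_not y hτ
      · intro h'
        exact absurd (mem_univ _) h'
    · exact hv σ (mem_rows.mpr ⟨h.2, hvσ⟩)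
  · exact ext_of_not y h

/-- the vector attached to a column -/
def w {n : ℕ} (m : ℕ) (v : Fin n) (τ : {τ : Finset (Fin n) // τ.card = m + 2}) :
    Row n (m + 1) v → ℚ := fun σ => (inc σ.1 τ.1 : ℚ)

theorem w_span {n m : ℕ} (v : Fin n) :
    (⊤ : Submodule ℚ (Row n (m + 1) v → ℚ)) ≤ Submodule.span ℚ (w m v '' Set.univ) := by
  rw [← (Pi.basisFun ℚ (Row n (m + 1) v)).span_eq, Submodule.span_le]
  rintro _ ⟨σ, rfl⟩
  have hσ := mem_rows.mp σ.2
  have hcard : (insert v σ.1).card = m + 2 := by
    rw [card_insert_of_notMem hσ.2, hσ.1]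
  have hmem : w m v ⟨insert v σ.1, hcard⟩ ∈ Submodule.span ℚ (w m v '' Set.univ) :=
    Submodule.subset_span ⟨_, Set.mem_univ _, rfl⟩
  have e : (Pi.basisFun ℚ (Row n (m + 1) v)) σ = (sg v σ.1 : ℚ) • w m v ⟨insert v σ.1, hcard⟩ := by
    funext ρ
    rw [Pi.basisFun_apply, Pi.smul_apply, smul_eq_mul]
    unfold w
    by_cases hρ : ρ = σ
    · subst hρ
      rw [Pi.single_eq_same, inc_insert hσ.2]
      have := sg_sq v ρ.1
      exact_mod_cast this.symm
    · rw [Pi.single_eq_of_ne hρ]
      have : inc ρ.1 (insert v σ.1) = 0 := by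
        by_contra hc
        obtain ⟨u, hu, hue⟩ := inc_ne_zero hc
        have hvρ := (mem_rows.mp ρ.2).2
        have hv : v ∈ insert u ρ.1 := by rw [← hue]; exact mem_insert_self _ _
        have huv : u = v := by
          rw [mem_insert] at hv
          rcases hv with h | h
          · exact h.symm
          · exact absurd h hvρ
        subst huv
        apply hρ
        apply Subtype.ext
        have := congrArg (fun s => s.erase u) hue
        simp only [erase_insert hσ.2, erase_insert hu] at this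
        exact this.symm
      rw [this]; simp
  rw [e]
  exact Submodule.smul_mem _ _ hmem

theorem core {n m : ℕ} (hm : 1 ≤ m) {X : Finset (Finset (Fin n))} (hX : IsComplex X)
    (v : Fin n) :
    ∃ (T : Row n (m + 1) v → Finset (Fin n)) (A : Matrix (Row n (m + 1) v) (Row n (m + 1) v) ℤ),
      Function.Injective T ∧ (∀ i, (T i).card = m + 2) ∧ (∀ i σ, A i σ = inc σ.1 (T i)) ∧
      A.det ≠ 0 ∧ Finite {h : Homology X m // IsOfFinAddOrder h} ∧
      Nat.card {h : Homology X m // IsOfFinAddOrder h} ≤ A.det.natAbs := by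
  classical
  -- choose the columns
  obtain ⟨B1, hB1sub, -, hB1span, hB1li⟩ := exists_linearIndepOn_extension
    (linearIndepOn_empty ℚ (w m v)) (Set.empty_subset {τ | τ.1 ∈ X})
  obtain ⟨B, -, hB1B, hBspan, hBli⟩ := exists_linearIndepOn_extension hB1li
    (Set.subset_univ B1)
  have hBtop : (⊤ : Submodule ℚ (Row n (m + 1) v → ℚ)) ≤
      Submodule.span ℚ (Set.range fun b : B => w m v b) := by
    have h1 : Submodule.span ℚ (w m v '' Set.univ) ≤ Submodule.span ℚ (w m v '' B) :=
      Submodule.span_le.mpr hBspan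
    have h2 : w m v '' B = Set.range fun b : B => w m v b := by
      rw [Set.image_eq_range]
    rw [← h2]
    exact (w_span v).trans h1
  let b : Module.Basis B ℚ (Row n (m + 1) v → ℚ) := Module.Basis.mk hBli hBtop
  have hb : ∀ i, b i = w m v i := fun i => Module.Basis.mk_apply _ _ _
  let e : Row n (m + 1) v ≃ B := (Pi.basisFun ℚ (Row n (m + 1) v)).indexEquiv b
  set T : Row n (m + 1) v → Finset (Fin n) := fun i => (e i).1.1 with hT
  have hTinj : Function.Injective T := by
    intro i j h
    exact e.injective (Subtype.ext (Subtype.ext h))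
  set A : Matrix (Row n (m + 1) v) (Row n (m + 1) v) ℤ :=
    Matrix.of fun i σ => inc σ.1 (T i) with hA
  have hAdet : A.det ≠ 0 := by
    have h1 : LinearIndependent ℚ (A.map (Int.cast : ℤ → ℚ)).row := by
      have h2 : (A.map (Int.cast : ℤ → ℚ)).row = fun i => b (e i) := by
        funext i σ
        rw [hb]
        rfl
      rw [h2]
      exact b.linearIndependent.comp e e.injective
    rw [Matrix.linearIndependent_rows_iff_isUnit, Matrix.isUnit_iff_isUnit_det,
      isUnit_iff_ne_zero] at h1
    intro h0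
    apply h1
    have := (Int.castRingHom ℚ).map_det A
    rw [h0] at this
    simpa using this.symm
  refine ⟨T, A, hTinj, fun i => (e i).1.2, fun i σ => rfl, hAdet, ?_⟩
  -- the lattice
  have hli : LinearIndependent ℤ A.row := Matrix.linearIndependent_rows_of_det_ne_zero hAdet
  set L : Submodule ℤ (Row n (m + 1) v → ℤ) := Submodule.span ℤ (Set.range A.row) with hL
  have hcard : Nat.card ((Row n (m + 1) v → ℤ) ⧸ L) = A.det.natAbs := by
    rw [← Submodule.natAbs_det_basis_change (Pi.basisFun ℤ (Row n (m + 1) v)) L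
      (Module.Basis.span hli), Pi.basisFun_det_apply]
    congr 2
    funext i j
    exact congrFun (congrArg Subtype.val (Module.Basis.span_apply hli i)) j
  have hfin : Finite ((Row n (m + 1) v → ℤ) ⧸ L) := by
    apply Nat.finite_of_card_ne_zero
    rw [hcard]
    exact Int.natAbs_ne_zero.mpr hAdet
  -- the projection
  let P : Chain X (m + 1) → (Row n (m + 1) v → ℤ) := fun c σ => ext X (m + 1) c σ.1
  have hPsub : ∀ c c', P (c - c') = P c - P c' := by
    intro c c'
    funext σ
    change ext X (m + 1) (c - c') σ.1 = ext X (m + 1) c σ.1 - ext X (m + 1) c' σ.1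
    unfold ext
    split_ifs
    · exact chain_sub c c' _
    · exact (sub_zero 0).symm
  -- main step
  have main : ∀ x : Chain X (m + 1), boundary X m x = 0 → ∀ k : ℤ, k ≠ 0 →
      ∀ c : Chain X (m + 2), k • x = boundary X (m + 1) c → P x ∈ L →
      ∃ c', boundary X (m + 1) c' = x := by
    intro x hx k hk c hc hPx
    rw [hL, Submodule.mem_span_range_iff_exists_fun] at hPx
    obtain ⟨a, ha⟩ := hPx
    -- rational vector
    set u : Row n (m + 1) v → ℚ := fun σ => (k : ℚ) * (P x σ : ℚ) with hu
    have hu1 : u = ∑ i, ((k : ℚ) * (a i : ℚ)) • b (e i) := by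
      funext σ
      have h1 := congrFun ha σ
      simp only [Finset.sum_apply, Pi.smul_apply, smul_eq_mul] at h1
      simp only [hu, Finset.sum_apply, Pi.smul_apply, smul_eq_mul, hb]
      rw [← h1]
      push_cast
      rw [mul_sum]
      refine sum_congr rfl fun i _ => ?_
      have : ((A.row i σ : ℤ) : ℚ) = w m v (e i) σ := rfl
      rw [this]; ring
    have hu2 : u ∈ Submodule.span ℚ (w m v '' B1) := by
      have h1 : u = ∑ τ : {σ : Finset (Fin n) // σ ∈ X ∧ σ.card = m + 2},
          (c τ : ℚ) • w m v ⟨τ.1, τ.2.2⟩ := by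
        funext σ
        have h2 : k * P x σ = D (ext X (m + 2) c) σ.1 := by
          rw [← ext_boundary hX (by omega : 1 ≤ m + 1), ← hc]
          simp only [P]
          unfold ext
          split_ifs
          · exact (chain_zsmul k x _).symm
          · exact mul_zero k
        rw [D_ext_apply] at h2
        simp only [hu, Finset.sum_apply, Pi.smul_apply, smul_eq_mul]
        have h3 : (k : ℚ) * (P x σ : ℚ) = ((k * P x σ : ℤ) : ℚ) := by push_cast; ring
        rw [h3, h2]
        push_cast
        refine sum_congr rfl fun τ _ => ?_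
        unfold w
        ring
      rw [h1]
      refine Submodule.sum_mem _ fun τ _ => Submodule.smul_mem _ _ ?_
      exact hB1span ⟨⟨τ.1, τ.2.2⟩, τ.2.1, rfl⟩
    have hu3 : ∀ i, (e i).1 ∉ B1 → a i = 0 := by
      intro i hi
      have h1 : w m v '' B1 = b '' {j : B | j.1 ∈ B1} := by
        ext y
        constructor
        · rintro ⟨τ, hτ, rfl⟩
          exact ⟨⟨τ, hB1B hτ⟩, hτ, hb _⟩
        · rintro ⟨j, hj, rfl⟩
          exact ⟨j.1, hj, (hb j).symm⟩
      rw [h1, Module.Basis.mem_span_image] at hu2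
      have h2 : b.repr u (e i) = (k : ℚ) * (a i : ℚ) := by
        rw [hu1, map_sum, Finsupp.finsetSum_apply]
        rw [Finset.sum_eq_single i]
        · simp
        · intro j _ hj
          rw [map_smul, Finsupp.smul_apply, Module.Basis.repr_self, Finsupp.single_apply,
            if_neg (fun h => hj (e.injective h)), smul_zero]
        · intro h
          exact absurd (mem_univ _) h
      have h3 : b.repr u (e i) = 0 := by
        by_contra hne
        exact hi (hu2 (Finsupp.mem_support_iff.mpr hne))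
      rw [h2] at h3
      have hk' : (k : ℚ) ≠ 0 := by exact_mod_cast hk
      exact_mod_cast (mul_eq_zero.mp h3).resolve_left hk'
    -- the integral chain
    let c' : Chain X (m + 2) := fun τ => ∑ i, if T i = τ.1 then a i else 0
    refine ⟨c', ?_⟩
    have hzero : x - boundary X (m + 1) c' = 0 := by
      apply cycle_eq_zero hX hm v
      · rw [map_sub, hx, boundary_boundary hX hm, sub_zero]
      · intro σ hσ
        have h1 : ext X (m + 1) (x - boundary X (m + 1) c') σ =
            P x ⟨σ, hσ⟩ - D (ext X (m + 2) c') σ := by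
          have := congrFun (hPsub x (boundary X (m + 1) c')) ⟨σ, hσ⟩
          simp only [Pi.sub_apply] at this
          rw [← ext_boundary hX (by omega : 1 ≤ m + 1)]
          exact this
        rw [h1, D_ext_apply]
        have h2 := congrFun ha ⟨σ, hσ⟩
        simp only [Finset.sum_apply, Pi.smul_apply, smul_eq_mul] at h2
        rw [← h2]
        have h3 : ∑ τ : {σ : Finset (Fin n) // σ ∈ X ∧ σ.card = m + 2}, inc σ τ.1 * c' τ =
            ∑ i, a i * inc σ (T i) := by
          simp only [c', mul_sum]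
          rw [sum_comm]
          refine sum_congr rfl fun i _ => ?_
          by_cases hi : T i ∈ X
          · rw [sum_eq_single ⟨T i, hi, (e i).1.2⟩]
            · simp only [if_true]; ring
            · intro τ _ hne
              rw [if_neg, mul_zero]
              intro h
              exact hne (Subtype.ext h.symm)
            · intro h
              exact absurd (mem_univ _) h
          · have : a i = 0 := hu3 i fun h => hi (hB1sub h)
            rw [this]
            simp
        rw [h3]
        have h4 : ∀ i, A.row i ⟨σ, hσ⟩ = inc σ (T i) := fun i => rfl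
        simp only [h4, sub_self]
    exact (sub_eq_zero.mp hzero).symm
  -- the injection
  set Bd : AddSubgroup (Cycles X m) := (boundary X (m + 1)).range.addSubgroupOf (Cycles X m)
    with hBd
  let q : Cycles X m →+ Homology X m := QuotientAddGroup.mk' Bd
  have hq : Function.Surjective q := QuotientAddGroup.mk'_surjective Bd
  have hqker : ∀ x, q x = 0 ↔ x ∈ Bd := fun x => QuotientAddGroup.eq_zero_iff x
  choose r hr using hq
  let f : {h : Homology X m // IsOfFinAddOrder h} → (Row n (m + 1) v → ℤ) ⧸ L := fun h =>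
    Submodule.Quotient.mk (P (r h.1).1)
  have hf : Function.Injective f := by
    intro h h' hhh
    apply Subtype.ext
    have hL' : P ((r h.1).1 - (r h'.1).1) ∈ L := by
      rw [hPsub]
      exact (Submodule.Quotient.eq L).mp hhh
    have htor : IsOfFinAddOrder (h.1 - h'.1) := by
      rw [sub_eq_add_neg]
      exact h.2.add h'.2.neg
    obtain ⟨k, hk0, hk⟩ := isOfFinAddOrder_iff_nsmul_eq_zero.mp htor
    have hk1 : q (k • (r h.1 - r h'.1)) = 0 := by
      rw [map_nsmul, map_sub, hr, hr]
      exact hk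
    rw [hqker] at hk1
    obtain ⟨c, hc⟩ := hk1
    have hc1 : ((k : ℕ) : ℤ) • ((r h.1).1 - (r h'.1).1) = boundary X (m + 1) c := by
      rw [natCast_zsmul]
      exact hc.symm
    obtain ⟨c', hc'⟩ := main _ (r h.1 - r h'.1).2 k (by exact_mod_cast hk0.ne') c hc1 hL'
    have hmem : r h.1 - r h'.1 ∈ Bd := ⟨c', hc'⟩
    have := (hqker _).mpr hmem
    rw [map_sub, hr, hr] at this
    exact sub_eq_zero.mp this
  refine ⟨Finite.of_injective f hf, ?_⟩
  rw [← hcard]
  exact Nat.card_le_card_of_injective f hf

/-- **Main theorem.** Let `d ≥ 2` and let `X` be a simplicial complex on `n` vertices. The set of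
elements of finite order of `H_{d-1}(X; ℤ)` is finite and its cardinality `t` satisfies
`t^10 ≤ ((4/27) (d+1)^5)^(binom (n-1) d)`. -/
theorem result (n d : ℕ) (hd : 2 ≤ d) (X : Finset (Finset (Fin n))) (hX : IsComplex X) :
    {h : Homology X (d - 1) | IsOfFinAddOrder h}.Finite ∧
    ({h : Homology X (d - 1) | IsOfFinAddOrder h}.ncard : ℝ) ^ 10 ≤
      ((4 / 27 : ℝ) * (d + 1) ^ 5) ^ ((n - 1).choose d) := by
  obtain ⟨m, rfl⟩ : ∃ m, d = m + 1 := ⟨d - 1, by omega⟩
  have hm : 1 ≤ m := by omega
  rw [Nat.add_sub_cancel]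
  rcases Nat.eq_zero_or_pos n with rfl | hn
  · -- no vertices
    have hsub : Subsingleton (Chain X (m + 1)) := by
      have : IsEmpty {σ : Finset (Fin 0) // σ ∈ X ∧ σ.card = m + 1} := by
        refine ⟨fun σ => ?_⟩
        obtain ⟨x, _⟩ := hX.nonempty σ.1 σ.2.1
        exact x.elim0
      exact ⟨fun a b => funext fun σ => this.elim σ⟩
    have hsub3 : Subsingleton (Homology X m) := by
      refine ⟨fun a b => ?_⟩
      obtain ⟨a, rfl⟩ := QuotientAddGroup.mk'_surjective _ a
      obtain ⟨b, rfl⟩ := QuotientAddGroup.mk'_surjective _ b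
      congr 1
      exact Subtype.ext (Subsingleton.elim _ _)
    have h1 : ({h : Homology X m | IsOfFinAddOrder h}.ncard : ℝ) ≤ 1 := by
      exact_mod_cast Set.ncard_le_one_of_subsingleton _
    refine ⟨Set.toFinite _, ?_⟩
    have h2 : ((4 / 27 : ℝ) * (((m + 1 : ℕ) : ℝ) + 1) ^ 5) ^ ((0 - 1).choose (m + 1)) = 1 := by
      simp
    rw [h2]
    exact pow_le_one₀ (Nat.cast_nonneg _) h1
  · have v : Fin n := ⟨0, hn⟩
    obtain ⟨T, A, hT, hTc, hA, hdet, hfin, hle⟩ := core hm hX v
    refine ⟨hfin, ?_⟩
    -- real determinant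
    set A' : Matrix (Row n (m + 1) v) (Row n (m + 1) v) ℝ := A.map (Int.cast : ℤ → ℝ) with hA'
    have hdetA' : A'.det = (A.det : ℝ) := by
      have := (Int.castRingHom ℝ).map_det A
      simpa [hA'] using this.symm
    have hdet' : A'.det ≠ 0 := by
      rw [hdetA']; exact_mod_cast hdet
    have hb := det_bound (n := n) (d := m + 1) hd v T hT hTc A'
      (fun i σ => by rw [hA', Matrix.map_apply, hA]) hdet'
    have hrows : (rows n (m + 1) v).card = (n - 1).choose (m + 1) := by
      have : rows n (m + 1) v = (univ.erase v).powersetCard (m + 1) := by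
        ext σ
        rw [mem_rows, mem_powersetCard]
        constructor
        · rintro ⟨h1, h2⟩
          exact ⟨fun x hx => mem_erase.mpr ⟨fun h => h2 (h ▸ hx), mem_univ _⟩, h1⟩
        · rintro ⟨h1, h2⟩
          exact ⟨h2, fun h => (mem_erase.mp (h1 h)).1 rfl⟩
      rw [this, card_powersetCard, card_erase_of_mem (mem_univ _), card_univ, Fintype.card_fin]
    rw [hrows] at hb
    set t : ℝ := ({h : Homology X m | IsOfFinAddOrder h}.ncard : ℝ) with ht
    have htc : {h : Homology X m | IsOfFinAddOrder h}.ncard =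
        Nat.card {h : Homology X m // IsOfFinAddOrder h} := rfl
    have ht1 : 0 < t := by
      rw [ht, htc]
      have hne : Nonempty {h : Homology X m // IsOfFinAddOrder h} := ⟨0, IsOfFinAddOrder.zero⟩
      exact_mod_cast Nat.card_pos
    have htA : t ^ 2 ≤ A'.det ^ 2 := by
      rw [hdetA']
      have h1 : t ≤ |(A.det : ℝ)| := by
        rw [ht, htc, ← Int.cast_abs, ← Int.natCast_natAbs]
        exact_mod_cast hle
      rw [← sq_abs (A.det : ℝ)]
      exact pow_le_pow_left₀ ht1.le h1 2
    have hlog : Real.log (t ^ 2) ≤ Real.log (A'.det ^ 2) :=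
      Real.log_le_log (by positivity) htA
    have h5 := hlog.trans hb
    have hbase : (0 : ℝ) < (4 / 27 : ℝ) * (((m + 1 : ℕ) : ℝ) + 1) ^ 5 := by positivity
    rw [← Real.log_le_log_iff (by positivity) (by positivity), Real.log_pow, Real.log_pow,
      Real.log_mul (by norm_num) (by positivity), Real.log_pow]
    have h27 : Real.log (4 / 27 : ℝ) = 2 * Real.log 2 - 3 * Real.log 3 := by
      rw [Real.log_div (by norm_num) (by norm_num)]
      have e1 : (4 : ℝ) = 2 ^ 2 := by norm_num
      have e2 : (27 : ℝ) = 3 ^ 3 := by norm_num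
      rw [e1, e2, Real.log_pow, Real.log_pow]
      norm_num
    rw [h27]
    rw [Real.log_pow] at h5
    push_cast at h5 ⊢
    linarith

end Pool.Agent.Results.MP_9701dc_gt.TorsionBound
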